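import Pool.Agent.Helper50.MS.Transport

/-!
# Milnor's conjecture for complete saddle surfaces with a scale invariant gradient bound

`E` is Euclidean three-space. An oriented surface immersed in `E` is given by a Hausdorff space `S`,
the immersion `X : S → E`, the unit normal `N` and the shape operator `A` (with `A N = 0`), all
smooth in local parametrizations of `S`.
-/

set_option autoImplicit false

namespace Pool.Agent.Results.MP_0da599_gt.BoundedGeometry

open Pool.Agent.Helper50.MS Filter Topology Set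

/-- A complete oriented immersed saddle surface in Euclidean three-space with
`|k₁| + |k₂| ≥ c > 0` and `|dA| ≤ C |A|²` has Gaussian curvature zero. -/
theorem result {E S : Type} [NormedAddCommGroup E] [InnerProductSpace ℝ E]
    (hE : Module.finrank ℝ E = 3) [TopologicalSpace S] [T2Space S] (X N : S → E)
    (A : S → E →L[ℝ] E) (k₁ k₂ : S → ℝ)
    (hsurf : ∀ s, ∃ U ψ, SurfaceChart X N A U ψ ∧ s ∈ ψ '' U)
    (hcomplete : ∀ γ : ℝ → S, ContinuousOn γ (Ico 0 1) →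
      (∃ L, LipschitzOnWith L (X ∘ γ) (Ico 0 1)) → ∃ s, Tendsto γ (𝓝[<] 1) (𝓝 s))
    (hprincipal : ∀ s, ∃ e₁ e₂, Orthonormal ℝ ![e₁, e₂, N s] ∧
      A s e₁ = k₁ s • e₁ ∧ A s e₂ = k₂ s • e₂)
    (hsaddle : ∀ s, k₁ s * k₂ s ≤ 0) (c C : ℝ) (hc : 0 < c)
    (hinf : ∀ s, c ≤ |k₁ s| + |k₂ s|)
    (hgrad : ∀ U ψ, SurfaceChart X N A U ψ → ∀ u ∈ U, ∀ v,
      ‖lineDeriv ℝ (A ∘ ψ) u v‖ ≤ C * ‖A (ψ u)‖ ^ 2 * ‖lineDeriv ℝ (X ∘ ψ) u v‖) :
    ∀ s, k₁ s * k₂ s = 0 :=
  main_general hE X N A k₁ k₂ hsurf hcomplete hprincipal hsaddle c C hc hinf hgrad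

end Pool.Agent.Results.MP_0da599_gt.BoundedGeometry
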