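import Mathlib
import Pool.Agent.Helper49.Mil.Estimate

/-!
# Saddle graphs: total curvature versus variation of the curvature ratio

The graph of `f : ℝ × ℝ → ℝ` has Gaussian curvature `gaussK f`, mean curvature `meanH f` and
principal curvatures `kOne f`, `kTwo f` (the two roots of `k ^ 2 - 2 H k + K`), all given by the
classical formulas of a graph.
-/

namespace Pool.Agent.Results.MP_0da599_gt.EntireGraphs

open Pool.Agent.Helper49.Mil Set MeasureTheory Filter Topology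

/-- partial derivative in the first variable -/
noncomputable def px (g : ℝ × ℝ → ℝ) (z : ℝ × ℝ) : ℝ := deriv (fun a => g (a, z.2)) z.1

/-- partial derivative in the second variable -/
noncomputable def py (g : ℝ × ℝ → ℝ) (z : ℝ × ℝ) : ℝ := deriv (fun b => g (z.1, b)) z.2

/-- the area factor of the graph of `f` over `z` -/
noncomputable def areaW (f : ℝ × ℝ → ℝ) (z : ℝ × ℝ) : ℝ := √(1 + px f z ^ 2 + py f z ^ 2)

/-- Gaussian curvature of the graph of `f` at the point over `z` -/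
noncomputable def gaussK (f : ℝ × ℝ → ℝ) (z : ℝ × ℝ) : ℝ :=
  (px (px f) z * py (py f) z - py (px f) z ^ 2) / (1 + px f z ^ 2 + py f z ^ 2) ^ 2

/-- mean curvature of the graph of `f` at the point over `z` -/
noncomputable def meanH (f : ℝ × ℝ → ℝ) (z : ℝ × ℝ) : ℝ :=
  ((1 + py f z ^ 2) * px (px f) z - 2 * px f z * py f z * py (px f) z
    + (1 + px f z ^ 2) * py (py f) z) / (2 * √(1 + px f z ^ 2 + py f z ^ 2) ^ 3)

/-- the larger principal curvature of the graph -/
noncomputable def kOne (f : ℝ × ℝ → ℝ) (z : ℝ × ℝ) : ℝ :=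
  meanH f z + √(meanH f z ^ 2 - gaussK f z)

/-- the smaller principal curvature of the graph -/
noncomputable def kTwo (f : ℝ × ℝ → ℝ) (z : ℝ × ℝ) : ℝ :=
  meanH f z - √(meanH f z ^ 2 - gaussK f z)

/-- the curvature ratio `(k₁ + k₂) / (k₁ - k₂)` -/
noncomputable def ratio (f : ℝ × ℝ → ℝ) (z : ℝ × ℝ) : ℝ :=
  (kOne f z + kTwo f z) / (kOne f z - kTwo f z)

/-- the length of the gradient of `g` for the metric of the graph of `f`:
`g^{ij} ∂ᵢg ∂ⱼg` with `(g^{ij})` the inverse of `(δᵢⱼ + ∂ᵢf ∂ⱼf)` -/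
noncomputable def gradLen (f g : ℝ × ℝ → ℝ) (z : ℝ × ℝ) : ℝ :=
  √(((1 + py f z ^ 2) * px g z ^ 2 - 2 * px f z * py f z * px g z * py g z
    + (1 + px f z ^ 2) * py g z ^ 2) / (1 + px f z ^ 2 + py f z ^ 2))

/-- the closed square with centre `w` and half side `R` -/
def square (w : ℝ × ℝ) (R : ℝ) : Set (ℝ × ℝ) := {z | |z.1 - w.1| ≤ R ∧ |z.2 - w.2| ≤ R}

/-- total absolute curvature of the part of the graph over `S` -/
noncomputable def totalK (f : ℝ × ℝ → ℝ) (S : Set (ℝ × ℝ)) : ℝ :=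
  ∫ z in S, |gaussK f z| * areaW f z

/-- the integral of the intrinsic gradient length of the curvature ratio over the part of the graph
over `S` where the ratio is less than `1 / 2` in absolute value -/
noncomputable def varRatio (f : ℝ × ℝ → ℝ) (S : Set (ℝ × ℝ)) : ℝ :=
  ∫ z in {z | z ∈ S ∧ |ratio f z| < 1 / 2}, gradLen f (ratio f) z * areaW f z

/-- the Dirichlet energy of the curvature ratio over the part of the graph over `S` where the ratio
is less than `1 / 2` in absolute value -/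
noncomputable def dirRatio (f : ℝ × ℝ → ℝ) (S : Set (ℝ × ℝ)) : ℝ :=
  ∫ z in {z | z ∈ S ∧ |ratio f z| < 1 / 2}, gradLen f (ratio f) z ^ 2 * areaW f z

lemma px_eq' {g : ℝ × ℝ → ℝ} {z : ℝ × ℝ} (hg : DifferentiableAt ℝ g z) :
    HasDerivAt (fun a => g (a, z.2)) (fderiv ℝ g z (1, 0)) z.1 := by
  have h : HasDerivAt (fun a : ℝ => ((a, z.2) : ℝ × ℝ)) (1, 0) z.1 :=
    (hasDerivAt_id z.1).prodMk (hasDerivAt_const z.1 z.2)
  have hg' : HasFDerivAt g (fderiv ℝ g z) (z.1, z.2) := hg.hasFDerivAt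
  exact hg'.comp_hasDerivAt z.1 h

lemma py_eq' {g : ℝ × ℝ → ℝ} {z : ℝ × ℝ} (hg : DifferentiableAt ℝ g z) :
    HasDerivAt (fun b => g (z.1, b)) (fderiv ℝ g z (0, 1)) z.2 := by
  have h : HasDerivAt (fun b : ℝ => ((z.1, b) : ℝ × ℝ)) (0, 1) z.2 :=
    (hasDerivAt_const z.2 z.1).prodMk (hasDerivAt_id z.2)
  have hg' : HasFDerivAt g (fderiv ℝ g z) (z.1, z.2) := hg.hasFDerivAt
  exact hg'.comp_hasDerivAt z.2 h

lemma px_fderiv {g : ℝ × ℝ → ℝ} (hg : Differentiable ℝ g) : px g = fun z => fderiv ℝ g z (1, 0) := by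
  ext z; exact (px_eq' (hg z)).deriv

lemma py_fderiv {g : ℝ × ℝ → ℝ} (hg : Differentiable ℝ g) : py g = fun z => fderiv ℝ g z (0, 1) := by
  ext z; exact (py_eq' (hg z)).deriv

lemma hasDerivAt_px {g : ℝ × ℝ → ℝ} (hg : Differentiable ℝ g) (z : ℝ × ℝ) :
    HasDerivAt (fun a => g (a, z.2)) (px g z) z.1 := by
  rw [px_fderiv hg]; exact px_eq' (hg z)

lemma hasDerivAt_py {g : ℝ × ℝ → ℝ} (hg : Differentiable ℝ g) (z : ℝ × ℝ) :
    HasDerivAt (fun b => g (z.1, b)) (py g z) z.2 := by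
  rw [py_fderiv hg]; exact py_eq' (hg z)

lemma contDiff_px {g : ℝ × ℝ → ℝ} {n : ℕ} (hg : ContDiff ℝ (n + 1) g) : ContDiff ℝ n (px g) := by
  rw [px_fderiv (hg.differentiable (by simp))]
  exact (hg.fderiv_right le_rfl).clm_apply contDiff_const

lemma contDiff_py {g : ℝ × ℝ → ℝ} {n : ℕ} (hg : ContDiff ℝ (n + 1) g) : ContDiff ℝ n (py g) := by
  rw [py_fderiv (hg.differentiable (by simp))]
  exact (hg.fderiv_right le_rfl).clm_apply contDiff_const

lemma px_py_comm {g : ℝ × ℝ → ℝ} (hg : ContDiff ℝ 2 g) : px (py g) = py (px g) := by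
  have hd : Differentiable ℝ g := hg.differentiable (by simp)
  have h1 : ContDiff ℝ 1 (fderiv ℝ g) := hg.fderiv_right (by norm_num)
  have hdd : Differentiable ℝ (fderiv ℝ g) := h1.differentiable (by simp)
  have hx : Differentiable ℝ (px g) := by
    rw [px_fderiv hd]
    exact fun z => (hdd z).clm_apply (differentiableAt_const _)
  have hy : Differentiable ℝ (py g) := by
    rw [py_fderiv hd]
    exact fun z => (hdd z).clm_apply (differentiableAt_const _)
  rw [px_fderiv hy, py_fderiv hx, px_fderiv hd, py_fderiv hd]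
  ext z
  have hs : IsSymmSndFDerivAt ℝ g z := hg.contDiffAt.isSymmSndFDerivAt (by simp)
  have e1 : fderiv ℝ (fun w => fderiv ℝ g w (0, 1)) z (1, 0) = fderiv ℝ (fderiv ℝ g) z (1, 0) (0, 1) := by
    rw [fderiv_clm_apply (hdd z) (differentiableAt_const _)]
    simp
  have e2 : fderiv ℝ (fun w => fderiv ℝ g w (1, 0)) z (0, 1) = fderiv ℝ (fderiv ℝ g) z (0, 1) (1, 0) := by
    rw [fderiv_clm_apply (hdd z) (differentiableAt_const _)]
    simp
  rw [e1, e2]
  exact hs (1, 0) (0, 1)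

/-- the data of a function of class `C ^ 3` -/
noncomputable def dat (f : ℝ × ℝ → ℝ) (hf : ContDiff ℝ 3 f) : Dat := by
  have hf' : ContDiff ℝ ((2 : ℕ) + 1) f := by exact_mod_cast hf
  have hp : ContDiff ℝ (2 : ℕ) (px f) := contDiff_px hf'
  have hq : ContDiff ℝ (2 : ℕ) (py f) := contDiff_py hf'
  have hp' : ContDiff ℝ ((1 : ℕ) + 1) (px f) := by exact_mod_cast hp
  have hq' : ContDiff ℝ ((1 : ℕ) + 1) (py f) := by exact_mod_cast hq
  have hr : ContDiff ℝ (1 : ℕ) (px (px f)) := contDiff_px hp'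
  have hs : ContDiff ℝ (1 : ℕ) (py (px f)) := contDiff_py hp'
  have ht : ContDiff ℝ (1 : ℕ) (py (py f)) := contDiff_py hq'
  have hr' : ContDiff ℝ ((0 : ℕ) + 1) (px (px f)) := by exact_mod_cast hr
  have ht' : ContDiff ℝ ((0 : ℕ) + 1) (py (py f)) := by exact_mod_cast ht
  have dp : Differentiable ℝ (px f) := hp.differentiable (by simp)
  have dq : Differentiable ℝ (py f) := hq.differentiable (by simp)
  have dr : Differentiable ℝ (px (px f)) := hr.differentiable (by simp)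
  have ds : Differentiable ℝ (py (px f)) := hs.differentiable (by simp)
  have dt : Differentiable ℝ (py (py f)) := ht.differentiable (by simp)
  have cf : px (py f) = py (px f) := px_py_comm (hf.of_le (by norm_num))
  have cp : px (py (px f)) = py (px (px f)) := px_py_comm (by exact_mod_cast hp)
  have cq : px (py (py f)) = py (py (px f)) := by
    rw [px_py_comm (g := py f) (by exact_mod_cast hq), cf]
  exact
  { p := px f
    q := py f
    r := px (px f)
    s := py (px f)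
    t := py (py f)
    rx := px (px (px f))
    ry := py (px (px f))
    tx := px (py (py f))
    ty := py (py (py f))
    cp := hp.continuous
    cq := hq.continuous
    cr := hr.continuous
    cs := hs.continuous
    ct := ht.continuous
    crx := (contDiff_px hr').continuous
    cry := (contDiff_py hr').continuous
    ctx := (contDiff_px ht').continuous
    cty := (contDiff_py ht').continuous
    pdx := hasDerivAt_px dp
    pdy := hasDerivAt_py dp
    qdx := fun z => by have := hasDerivAt_px dq z; rwa [cf] at this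
    qdy := hasDerivAt_py dq
    rdx := hasDerivAt_px dr
    rdy := hasDerivAt_py dr
    sdx := fun z => by have := hasDerivAt_px ds z; rwa [cp] at this
    sdy := fun z => by have := hasDerivAt_py ds z; rwa [← cq] at this
    tdx := hasDerivAt_px dt
    tdy := hasDerivAt_py dt }


/-! ### the flux data of a saddle graph -/

section graph

variable {f : ℝ × ℝ → ℝ}

lemma one_le_areaW (f : ℝ × ℝ → ℝ) (z : ℝ × ℝ) : 1 ≤ areaW f z :=
  Real.one_le_sqrt.2 (by nlinarith [sq_nonneg (px f z), sq_nonneg (py f z)])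

lemma areaW_sq (f : ℝ × ℝ → ℝ) (z : ℝ × ℝ) : areaW f z ^ 2 = 1 + px f z ^ 2 + py f z ^ 2 :=
  Real.sq_sqrt (by positivity)

lemma contDiff_partials (hf : ContDiff ℝ 3 f) :
    ContDiff ℝ 1 (px f) ∧ ContDiff ℝ 1 (py f) ∧ ContDiff ℝ 1 (px (px f)) ∧
      ContDiff ℝ 1 (py (px f)) ∧ ContDiff ℝ 1 (py (py f)) := by
  have hf' : ContDiff ℝ ((2 : ℕ) + 1) f := by exact_mod_cast hf
  have hp : ContDiff ℝ (2 : ℕ) (px f) := contDiff_px hf'
  have hq : ContDiff ℝ (2 : ℕ) (py f) := contDiff_py hf'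
  have hp' : ContDiff ℝ ((1 : ℕ) + 1) (px f) := by exact_mod_cast hp
  have hq' : ContDiff ℝ ((1 : ℕ) + 1) (py f) := by exact_mod_cast hq
  have hr : ContDiff ℝ (1 : ℕ) (px (px f)) := contDiff_px hp'
  have hs : ContDiff ℝ (1 : ℕ) (py (px f)) := contDiff_py hp'
  have ht : ContDiff ℝ (1 : ℕ) (py (py f)) := contDiff_py hq'
  refine ⟨hp.of_le (by norm_num), hq.of_le (by norm_num), ?_, ?_, ?_⟩ <;> assumption_mod_cast

lemma contDiff_areaW (hf : ContDiff ℝ 3 f) : ContDiff ℝ 1 (areaW f) := by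
  obtain ⟨hp, hq, hr, hs, ht⟩ := contDiff_partials hf
  unfold areaW
  refine ContDiff.sqrt ((contDiff_const.add (hp.pow 2)).add (hq.pow 2)) ?_
  intro z; positivity

lemma contDiff_gaussK (hf : ContDiff ℝ 3 f) : ContDiff ℝ 1 (gaussK f) := by
  obtain ⟨hp, hq, hr, hs, ht⟩ := contDiff_partials hf
  unfold gaussK
  refine ContDiff.div ((hr.mul ht).sub (hs.pow 2))
    (((contDiff_const.add (hp.pow 2)).add (hq.pow 2)).pow 2) ?_
  intro z; positivity

lemma contDiff_meanH (hf : ContDiff ℝ 3 f) : ContDiff ℝ 1 (meanH f) := by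
  obtain ⟨hp, hq, hr, hs, ht⟩ := contDiff_partials hf
  unfold meanH
  refine ContDiff.div ?_ ?_ ?_
  · exact ((((contDiff_const.add (hq.pow 2)).mul hr).sub
      (((contDiff_const.mul hp).mul hq).mul hs)).add ((contDiff_const.add (hp.pow 2)).mul ht))
  · exact contDiff_const.mul ((contDiff_areaW hf).pow 3)
  · intro z
    have := one_le_areaW f z
    have h2 : (0 : ℝ) < 2 * areaW f z ^ 3 := by positivity
    exact h2.ne'

/-- the discriminant `H² - K` -/
noncomputable def disc (f : ℝ × ℝ → ℝ) (z : ℝ × ℝ) : ℝ := meanH f z ^ 2 - gaussK f z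

lemma contDiff_disc (hf : ContDiff ℝ 3 f) : ContDiff ℝ 1 (disc f) :=
  ((contDiff_meanH hf).pow 2).sub (contDiff_gaussK hf)

lemma kOne_eq (f : ℝ × ℝ → ℝ) (z : ℝ × ℝ) : kOne f z = meanH f z + √(disc f z) := rfl
lemma kTwo_eq (f : ℝ × ℝ → ℝ) (z : ℝ × ℝ) : kTwo f z = meanH f z - √(disc f z) := rfl

lemma ratio_eq (f : ℝ × ℝ → ℝ) : ratio f = fun z => (2 * meanH f z) / (2 * √(disc f z)) := by
  ext z
  unfold ratio
  rw [kOne_eq, kTwo_eq]
  congr 1 <;> ring

lemma absK_eq {z : ℝ × ℝ} (hK : gaussK f z ≤ 0) :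
    |kOne f z| + |kTwo f z| = 2 * √(disc f z) := by
  have hroot : |meanH f z| ≤ √(disc f z) := by
    apply Real.abs_le_sqrt; unfold disc; linarith
  have h1 : |kOne f z| = kOne f z := abs_of_nonneg (by
    rw [kOne_eq]; have := (abs_le.1 hroot).1; linarith)
  have h2 : |kTwo f z| = -kTwo f z := abs_of_nonpos (by
    rw [kTwo_eq]; have := (abs_le.1 hroot).2; linarith)
  rw [h1, h2, kOne_eq, kTwo_eq]; ring

lemma disc_pos {z : ℝ × ℝ} (hK : gaussK f z ≤ 0) (h : 0 < |kOne f z| + |kTwo f z|) :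
    0 < disc f z := by
  rw [absK_eq hK] at h
  have : 0 < √(disc f z) := by linarith
  exact Real.sqrt_pos.1 this

lemma contDiffAt_ratio (hf : ContDiff ℝ 3 f) {z : ℝ × ℝ} (h : 0 < disc f z) :
    ContDiffAt ℝ 1 (ratio f) z := by
  rw [ratio_eq]
  refine ContDiffAt.div ?_ ?_ ?_
  · exact (contDiff_const.mul (contDiff_meanH hf)).contDiffAt
  · exact contDiffAt_const.mul ((contDiff_disc hf).contDiffAt.sqrt h.ne')
  · have : 0 < √(disc f z) := Real.sqrt_pos.2 h
    positivity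

lemma ratio_facts (hf : ContDiff ℝ 3 f) :
    IsOpen {z | 0 < disc f z} ∧ ContinuousOn (ratio f) {z | 0 < disc f z} ∧
    ContinuousOn (px (ratio f)) {z | 0 < disc f z} ∧
    ContinuousOn (py (ratio f)) {z | 0 < disc f z} ∧
    (∀ z, 0 < disc f z → HasDerivAt (fun a => ratio f (a, z.2)) (px (ratio f) z) z.1) ∧
    (∀ z, 0 < disc f z → HasDerivAt (fun b => ratio f (z.1, b)) (py (ratio f) z) z.2) := by
  have hU : IsOpen {z | 0 < disc f z} := isOpen_lt continuous_const (contDiff_disc hf).continuous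
  have hon : ContDiffOn ℝ 1 (ratio f) {z | 0 < disc f z} :=
    fun z hz => (contDiffAt_ratio hf hz).contDiffWithinAt
  have hfd : ContinuousOn (fderiv ℝ (ratio f)) {z | 0 < disc f z} :=
    hon.continuousOn_fderiv_of_isOpen hU le_rfl
  have hd : ∀ z, 0 < disc f z → DifferentiableAt ℝ (ratio f) z :=
    fun z hz => (contDiffAt_ratio hf hz).differentiableAt one_ne_zero
  refine ⟨hU, hon.continuousOn, ?_, ?_, ?_, ?_⟩
  · refine (hfd.clm_apply continuousOn_const (g := fun _ => ((1, 0) : ℝ × ℝ))).congr ?_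
    intro z hz
    exact (px_eq' (hd z hz)).deriv
  · refine (hfd.clm_apply continuousOn_const (g := fun _ => ((0, 1) : ℝ × ℝ))).congr ?_
    intro z hz
    exact (py_eq' (hd z hz)).deriv
  · intro z hz
    have := px_eq' (hd z hz)
    rwa [← this.deriv] at this
  · intro z hz
    have := py_eq' (hd z hz)
    rwa [← this.deriv] at this

lemma pair_bound (p q a b : ℝ) :
    |a * p + b * q| ≤ (1 + p ^ 2 + q ^ 2) *
      √(((1 + q ^ 2) * a ^ 2 - 2 * p * q * a * b + (1 + p ^ 2) * b ^ 2) / (1 + p ^ 2 + q ^ 2)) := by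
  set W2 := 1 + p ^ 2 + q ^ 2 with hW2
  have hW : 0 < W2 := by positivity
  have e : (1 + q ^ 2) * a ^ 2 - 2 * p * q * a * b + (1 + p ^ 2) * b ^ 2 =
    a ^ 2 + b ^ 2 + (q * a - p * b) ^ 2 := by ring
  have hN : 0 ≤ (1 + q ^ 2) * a ^ 2 - 2 * p * q * a * b + (1 + p ^ 2) * b ^ 2 := by
    rw [e]; positivity
  refine abs_le_of_sq_le_sq ?_ (by positivity)
  rw [mul_pow, Real.sq_sqrt (by positivity)]
  have e2 : W2 ^ 2 * (((1 + q ^ 2) * a ^ 2 - 2 * p * q * a * b + (1 + p ^ 2) * b ^ 2) / W2) =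
    W2 * ((1 + q ^ 2) * a ^ 2 - 2 * p * q * a * b + (1 + p ^ 2) * b ^ 2) := by
    field_simp
  rw [e2, e]
  have h1 : (a * p + b * q) ^ 2 ≤ (p ^ 2 + q ^ 2) * (a ^ 2 + b ^ 2) := by
    nlinarith [sq_nonneg (a * q - b * p)]
  have h2 : (p ^ 2 + q ^ 2) * (a ^ 2 + b ^ 2) ≤ W2 * (a ^ 2 + b ^ 2 + (q * a - p * b) ^ 2) := by
    apply mul_le_mul _ _ (by positivity) hW.le
    · rw [hW2]; linarith
    · nlinarith [sq_nonneg (q * a - p * b)]
  linarith

/-- the flux data of a saddle graph over the square centred at the origin -/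
noncomputable def fluxOf (hf : ContDiff ℝ 3 f) {R c : ℝ} (hc : 0 < c)
    (h : ∀ z ∈ sq R, gaussK f z ≤ 0 ∧ c ≤ |kOne f z| + |kTwo f z|) : Flux R c := by
  have hcp : Continuous (px f) := (dat f hf).cp
  have hcq : Continuous (py f) := (dat f hf).cq
  have hcr : Continuous (px (px f)) := (dat f hf).cr
  have hcs : Continuous (py (px f)) := (dat f hf).cs
  have hct : Continuous (py (py f)) := (dat f hf).ct
  have hW : Continuous (areaW f) := (contDiff_areaW hf).continuous
  have hW0 : ∀ z, areaW f z ≠ 0 := fun z => by have := one_le_areaW f z; positivity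
  have hWp : ∀ z, 0 < areaW f z := fun z => by have := one_le_areaW f z; positivity
  have hdisc : ∀ z ∈ sq R, 0 < disc f z := fun z hz =>
    disc_pos (h z hz).1 (lt_of_lt_of_le hc (h z hz).2)
  have hsub : sq R ⊆ {z | 0 < disc f z} := hdisc
  have hr := ratio_facts hf
  have hcrat := hr.2.1.mono hsub
  have hcrx := hr.2.2.1.mono hsub
  have hcry := hr.2.2.2.1.mono hsub
  have pdx := (dat f hf).pdx
  have pdy := (dat f hf).pdy
  have qdx := (dat f hf).qdx
  have qdy := (dat f hf).qdy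
  have W2pos : ∀ z, (1 + px f z ^ 2 + py f z ^ 2) ≠ 0 := fun z => by positivity
  exact
  { P := fun z => px f z / areaW f z
    Q := fun z => py f z / areaW f z
    PX := fun z => ((1 + py f z ^ 2) * px (px f) z - px f z * py f z * py (px f) z) / areaW f z ^ 3
    QY := fun z => ((1 + px f z ^ 2) * py (py f) z - px f z * py f z * py (px f) z) / areaW f z ^ 3
    tau := ratio f
    tX := px (ratio f)
    tY := py (ratio f)
    gT := gradLen f (ratio f)
    k := fun z => |kOne f z| + |kTwo f z|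
    Ka := fun z => |gaussK f z|
    W := areaW f
    cP := (hcp.div hW hW0).continuousOn
    cQ := (hcq.div hW hW0).continuousOn
    cPX := ((((continuous_const.add (hcq.pow 2)).mul hcr).sub ((hcp.mul hcq).mul hcs)).div
      (hW.pow 3) (fun z => pow_ne_zero 3 (hW0 z))).continuousOn
    cQY := ((((continuous_const.add (hcp.pow 2)).mul hct).sub ((hcp.mul hcq).mul hcs)).div
      (hW.pow 3) (fun z => pow_ne_zero 3 (hW0 z))).continuousOn
    ctau := hcrat
    ctX := hcrx
    ctY := hcry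
    cgT := by
      unfold gradLen
      refine ContinuousOn.sqrt (ContinuousOn.div ?_ ?_ (fun z _ => W2pos z))
      · fun_prop
      · fun_prop
    cKa := ((contDiff_gaussK hf).continuous.abs).continuousOn
    cW := hW.continuousOn
    hP := by
      intro z _
      have e1 : HasDerivAt (fun a => px f (a, z.2)) (px (px f) z) z.1 := pdx z
      have e2 : HasDerivAt (fun a => py f (a, z.2)) (py (px f) z) z.1 := qdx z
      have e3 := (((e1.pow 2).const_add 1).add (e2.pow 2)).sqrt (W2pos z)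
      have e4 := e1.div e3 (hW0 z)
      refine e4.congr_deriv ?_
      have hw : √(((fun a => 1 + ((fun a => px f (a, z.2)) ^ 2) a) + ((fun a => py f (a, z.2)) ^ 2)) z.1) = areaW f z := rfl
      have hw2 := areaW_sq f z
      simp only [Pi.pow_apply, Pi.add_apply, Prod.mk.eta]
      have hw3 : √(1 + px f z ^ 2 + py f z ^ 2) = areaW f z := rfl
      rw [hw3]
      have := hWp z
      field_simp
      rw [hw2]
      push_cast
      ring
    hQ := by
      intro z _
      have e1 : HasDerivAt (fun b => px f (z.1, b)) (py (px f) z) z.2 := pdy z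
      have e2 : HasDerivAt (fun b => py f (z.1, b)) (py (py f) z) z.2 := qdy z
      have e3 := (((e1.pow 2).const_add 1).add (e2.pow 2)).sqrt (W2pos z)
      have e4 := e2.div e3 (hW0 z)
      refine e4.congr_deriv ?_
      have hw2 := areaW_sq f z
      simp only [Pi.pow_apply, Pi.add_apply, Prod.mk.eta]
      have hw3 : √(1 + px f z ^ 2 + py f z ^ 2) = areaW f z := rfl
      rw [hw3]
      have := hWp z
      field_simp
      rw [hw2]
      push_cast
      ring
    htX := fun z hz => hr.2.2.2.2.1 z (hdisc z hz)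
    htY := fun z hz => hr.2.2.2.2.2 z (hdisc z hz)
    P1 := by
      intro z _
      rw [abs_div, abs_of_pos (hWp z), div_le_one (hWp z)]
      apply Real.abs_le_sqrt
      nlinarith [sq_nonneg (py f z)]
    Q1 := by
      intro z _
      rw [abs_div, abs_of_pos (hWp z), div_le_one (hWp z)]
      apply Real.abs_le_sqrt
      nlinarith [sq_nonneg (px f z)]
    W1 := fun z _ => one_le_areaW f z
    hc := fun z hz => (h z hz).2
    hH := by
      intro z hz
      have hs : 0 < √(disc f z) := Real.sqrt_pos.2 (hdisc z hz)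
      rw [absK_eq (h z hz).1, ratio_eq]
      have e : 2 * meanH f z / (2 * √(disc f z)) * (2 * √(disc f z)) = 2 * meanH f z := by
        field_simp
      rw [e]
      unfold meanH
      have hw3 : √(1 + px f z ^ 2 + py f z ^ 2) = areaW f z := rfl
      rw [hw3]
      have := hWp z
      field_simp
      ring
    hK := by
      intro z hz
      have hs : 0 < √(disc f z) := Real.sqrt_pos.2 (hdisc z hz)
      have hs2 : √(disc f z) ^ 2 = disc f z := Real.sq_sqrt (hdisc z hz).le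
      rw [absK_eq (h z hz).1, ratio_eq, abs_of_nonpos (h z hz).1]
      have e : (2 * √(disc f z)) ^ 2 * (1 - (2 * meanH f z / (2 * √(disc f z))) ^ 2) =
        4 * √(disc f z) ^ 2 - 4 * meanH f z ^ 2 := by
        field_simp
        ring
      rw [e, hs2]
      unfold disc
      ring
    hK0 := fun z _ => abs_nonneg _
    hG := by
      intro z _
      have hb := pair_bound (px f z) (py f z) (px (ratio f) z) (py (ratio f) z)
      have hw := hWp z
      have e : px (ratio f) z * (px f z / areaW f z) + py (ratio f) z * (py f z / areaW f z) =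
        (px (ratio f) z * px f z + py (ratio f) z * py f z) / areaW f z := by ring
      rw [e, abs_div, abs_of_pos hw, div_le_iff₀ hw]
      refine hb.trans (le_of_eq ?_)
      rw [← areaW_sq f z]
      unfold gradLen
      rw [← areaW_sq f z]
      ring }

end graph

/-! ### translations -/

/-- translate of a function -/
def sh (w : ℝ × ℝ) (g : ℝ × ℝ → ℝ) : ℝ × ℝ → ℝ := fun z => g (z + w)

lemma px_sh (w : ℝ × ℝ) (g : ℝ × ℝ → ℝ) : px (sh w g) = sh w (px g) := by
  ext z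
  exact deriv_comp_add_const (fun b => g (b, (z + w).2)) w.1 z.1

lemma py_sh (w : ℝ × ℝ) (g : ℝ × ℝ → ℝ) : py (sh w g) = sh w (py g) := by
  ext z
  exact deriv_comp_add_const (fun b => g ((z + w).1, b)) w.2 z.2

lemma gaussK_sh (w : ℝ × ℝ) (f : ℝ × ℝ → ℝ) : gaussK (sh w f) = sh w (gaussK f) := by
  ext z; unfold gaussK; rw [px_sh, py_sh, px_sh, py_sh, py_sh]; rfl

lemma meanH_sh (w : ℝ × ℝ) (f : ℝ × ℝ → ℝ) : meanH (sh w f) = sh w (meanH f) := by
  ext z; unfold meanH; rw [px_sh, py_sh, px_sh, py_sh, py_sh]; rfl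

lemma kOne_sh (w : ℝ × ℝ) (f : ℝ × ℝ → ℝ) : kOne (sh w f) = sh w (kOne f) := by
  ext z; unfold kOne; rw [gaussK_sh, meanH_sh]; rfl

lemma kTwo_sh (w : ℝ × ℝ) (f : ℝ × ℝ → ℝ) : kTwo (sh w f) = sh w (kTwo f) := by
  ext z; unfold kTwo; rw [gaussK_sh, meanH_sh]; rfl

lemma ratio_sh (w : ℝ × ℝ) (f : ℝ × ℝ → ℝ) : ratio (sh w f) = sh w (ratio f) := by
  ext z; unfold ratio; rw [kOne_sh, kTwo_sh]; rfl

lemma areaW_sh (w : ℝ × ℝ) (f : ℝ × ℝ → ℝ) : areaW (sh w f) = sh w (areaW f) := by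
  ext z; unfold areaW; rw [px_sh, py_sh]; rfl

lemma gradLen_sh (w : ℝ × ℝ) (f g : ℝ × ℝ → ℝ) :
    gradLen (sh w f) (sh w g) = sh w (gradLen f g) := by
  ext z; unfold gradLen; rw [px_sh, py_sh, px_sh, py_sh]; rfl

lemma sq_eq_preimage (w : ℝ × ℝ) (R : ℝ) : (sq R : Set (ℝ × ℝ)) = (fun z => z + w) ⁻¹' square w R := by
  ext z
  show (z.1 ∈ Icc (-R) R ∧ z.2 ∈ Icc (-R) R) ↔ (|z.1 + w.1 - w.1| ≤ R ∧ |z.2 + w.2 - w.2| ≤ R)
  rw [add_sub_cancel_right, add_sub_cancel_right, abs_le, abs_le]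
  rfl

lemma int_sh (w : ℝ × ℝ) (F : ℝ × ℝ → ℝ) (S : Set (ℝ × ℝ)) :
    ∫ z in (fun z => z + w) ⁻¹' S, sh w F z = ∫ z in S, F z :=
  (measurePreserving_add_right volume w).setIntegral_preimage_emb
    (measurableEmbedding_addRight w) F S

lemma totalK_sh (w : ℝ × ℝ) (f : ℝ × ℝ → ℝ) (R : ℝ) :
    totalK (sh w f) (sq R) = totalK f (square w R) := by
  unfold totalK
  rw [gaussK_sh, areaW_sh, sq_eq_preimage w]
  exact int_sh w (fun z => |gaussK f z| * areaW f z) (square w R)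

lemma zone_sh (w : ℝ × ℝ) (f : ℝ × ℝ → ℝ) (R : ℝ) :
    {z | z ∈ sq R ∧ |ratio (sh w f) z| < 1 / 2} =
      (fun z => z + w) ⁻¹' {z | z ∈ square w R ∧ |ratio f z| < 1 / 2} := by
  rw [sq_eq_preimage w, ratio_sh]
  rfl

lemma varRatio_sh (w : ℝ × ℝ) (f : ℝ × ℝ → ℝ) (R : ℝ) :
    varRatio (sh w f) (sq R) = varRatio f (square w R) := by
  unfold varRatio
  rw [zone_sh, areaW_sh, ratio_sh, gradLen_sh]
  exact int_sh w (fun z => gradLen f (ratio f) z * areaW f z) _

lemma dirRatio_sh (w : ℝ × ℝ) (f : ℝ × ℝ → ℝ) (R : ℝ) :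
    dirRatio (sh w f) (sq R) = dirRatio f (square w R) := by
  unfold dirRatio
  rw [zone_sh, areaW_sh, ratio_sh, gradLen_sh]
  exact int_sh w (fun z => gradLen f (ratio f) z ^ 2 * areaW f z) _

lemma contDiff_sh {w : ℝ × ℝ} {f : ℝ × ℝ → ℝ} (hf : ContDiff ℝ 3 f) : ContDiff ℝ 3 (sh w f) :=
  hf.comp (contDiff_id.add contDiff_const)

lemma shift_mem {w z : ℝ × ℝ} {R : ℝ} (hz : z ∈ sq R) : z + w ∈ square w R := by
  rw [sq_eq_preimage w] at hz
  exact hz

/-! ### the estimates -/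

lemma DW (f : ℝ × ℝ → ℝ) (z : ℝ × ℝ) (hK : gaussK f z ≤ 0) :
    0 ≤ py (px f) z ^ 2 - px (px f) z * py (py f) z ∧
    |gaussK f z| * areaW f z ≤ py (px f) z ^ 2 - px (px f) z * py (py f) z := by
  have hW2 : (0 : ℝ) < (1 + px f z ^ 2 + py f z ^ 2) ^ 2 := by positivity
  have hD : 0 ≤ py (px f) z ^ 2 - px (px f) z * py (py f) z := by
    unfold gaussK at hK
    rw [div_le_iff₀ hW2] at hK
    linarith
  refine ⟨hD, ?_⟩
  have hw := one_le_areaW f z
  have e : |gaussK f z| * areaW f z =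
      (py (px f) z ^ 2 - px (px f) z * py (py f) z) / areaW f z ^ 3 := by
    rw [abs_of_nonpos hK]
    unfold gaussK
    rw [← areaW_sq f z]
    have : areaW f z ≠ 0 := by positivity
    field_simp
    ring
  rw [e]
  exact div_le_self hD (one_le_pow₀ hw)

/-- all the estimates on a square centred at the origin -/
lemma origin_main : ∃ C : ℝ, 0 < C ∧ ∀ f : ℝ × ℝ → ℝ, ContDiff ℝ 3 f →
    ∀ R c : ℝ, 0 < R → 0 < c →
    (∀ z ∈ sq R, gaussK f z ≤ 0 ∧ c ≤ |kOne f z| + |kTwo f z|) →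
    c ^ 2 * R ^ 2 ≤ C * (c * R + totalK f (sq R) + c * varRatio f (sq R)) ∧
    (∀ M : ℝ, (∀ z ∈ sq R, |px f z| ≤ M ∧ |py f z| ≤ M) →
      c ^ 2 * R ^ 2 ≤ C * (c * R + M ^ 2 + c * varRatio f (sq R))) ∧
    (∀ G : ℝ, 0 ≤ G → (∀ z ∈ sq R, |ratio f z| < 1 / 2 →
      gradLen f (ratio f) z ≤ G * (|kOne f z| + |kTwo f z|) ^ 2) →
      varRatio f (sq R) ≤ 16 / 3 * G * totalK f (sq R)) ∧
    c ^ 2 * varRatio f (sq R) ^ 2 ≤ 16 / 3 * totalK f (sq R) * dirRatio f (sq R) := by
  obtain ⟨L, hL0, hL⟩ := ph_deriv_bound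
  refine ⟨512 + 4 * L, by positivity, ?_⟩
  intro f hf R c hR hc h
  set d := fluxOf hf hc h with hd
  have hest := d.estimate hR hc hL0 hL
  have hV : d.vari = varRatio f (sq R) := rfl
  have hT : (∫ z in sq R, d.Ka z * d.W z) = totalK f (sq R) := rfl
  have hE : (∫ z in d.zone, d.gT z ^ 2 * d.W z) = dirRatio f (sq R) := rfl
  have hV0 : 0 ≤ varRatio f (sq R) := by rw [← hV]; exact d.vari_nonneg
  have hcz := d.int_cz_le hR
  have hT0 : 0 ≤ totalK f (sq R) := setIntegral_nonneg (measurableSet_sq R) fun z _ =>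
    mul_nonneg (abs_nonneg _) (by have := one_le_areaW f z; linarith)
  have p1 : 0 ≤ c * R := by positivity
  have p2 : 0 ≤ c * varRatio f (sq R) := by positivity
  rw [hV] at hest
  rw [hT] at hcz
  refine ⟨?_, ?_, ?_, ?_⟩
  · have p3 := mul_nonneg hL0 p1
    have p4 := mul_nonneg hL0 hT0
    nlinarith
  · intro M hM
    have hM0 : 0 ≤ M := (abs_nonneg _).trans (hM (0, 0)
      ⟨⟨by simpa using hR.le, hR.le⟩, ⟨by simpa using hR.le, hR.le⟩⟩).1
    have hh := heinz (dat f hf) hR hM0 (fun z hz => (hM z hz).1) (fun z hz => (hM z hz).2)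
    have hle : ∫ z in sq R, cz R z * (d.Ka z * d.W z) ≤
        ∫ z in sq R, cz R z * ((dat f hf).s z ^ 2 - (dat f hf).r z * (dat f hf).t z) := by
      have ccz : ContinuousOn (cz R) (sq R) := smul_cont.continuousOn
      have cKa := d.cKa
      have cW := d.cW
      have cr := (dat f hf).cr
      have cs := (dat f hf).cs
      have ct := (dat f hf).ct
      refine setIntegral_mono_on ?_ ?_ (measurableSet_sq R) ?_
      · apply integrableOn_sq; fun_prop
      · apply integrableOn_sq; fun_prop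
      · intro z hz
        exact mul_le_mul_of_nonneg_left (DW f z (h z hz).1).2 (cz_nonneg R z)
    have p3 := mul_nonneg hL0 p1
    have p4 := mul_nonneg hL0 (sq_nonneg M)
    have p5 := sq_nonneg M
    have h9 := hle.trans hh
    nlinarith
  · intro G hG hg
    rw [← hV, ← hT]
    exact d.vari_le_of_bound hG fun z hz => hg z hz.1 hz.2
  · have h1 := d.vari_sq_le hc
    rw [hV, hT, hE] at h1
    have e : c ^ 2 * ((16 / (3 * c ^ 2) * totalK f (sq R)) * dirRatio f (sq R)) =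
      16 / 3 * totalK f (sq R) * dirRatio f (sq R) := by
      field_simp
    rw [← e]
    exact mul_le_mul_of_nonneg_left h1 (sq_nonneg c)

/-- all the estimates on an arbitrary square -/
lemma local_main : ∃ C : ℝ, 0 < C ∧ ∀ f : ℝ × ℝ → ℝ, ContDiff ℝ 3 f →
    ∀ (w : ℝ × ℝ) (R c : ℝ), 0 < R → 0 < c →
    (∀ z ∈ square w R, gaussK f z ≤ 0 ∧ c ≤ |kOne f z| + |kTwo f z|) →
    c ^ 2 * R ^ 2 ≤ C * (c * R + totalK f (square w R) + c * varRatio f (square w R)) ∧
    (∀ M : ℝ, (∀ z ∈ square w R, |px f z| ≤ M ∧ |py f z| ≤ M) →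
      c ^ 2 * R ^ 2 ≤ C * (c * R + M ^ 2 + c * varRatio f (square w R))) ∧
    (∀ G : ℝ, 0 ≤ G → (∀ z ∈ square w R, |ratio f z| < 1 / 2 →
      gradLen f (ratio f) z ≤ G * (|kOne f z| + |kTwo f z|) ^ 2) →
      varRatio f (square w R) ≤ 16 / 3 * G * totalK f (square w R)) ∧
    c ^ 2 * varRatio f (square w R) ^ 2 ≤
      16 / 3 * totalK f (square w R) * dirRatio f (square w R) := by
  obtain ⟨C, hC, h0⟩ := origin_main
  refine ⟨C, hC, ?_⟩
  intro f hf w R c hR hc h
  have h1 := h0 (sh w f) (contDiff_sh hf) R c hR hc (by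
    intro z hz
    rw [gaussK_sh, kOne_sh, kTwo_sh]
    exact h (z + w) (shift_mem hz))
  rw [totalK_sh, varRatio_sh, dirRatio_sh] at h1
  obtain ⟨a1, a2, a3, a4⟩ := h1
  refine ⟨a1, ?_, ?_, a4⟩
  · intro M hM
    apply a2
    intro z hz
    rw [px_sh, py_sh]
    exact hM (z + w) (shift_mem hz)
  · intro G hG hg
    apply a3 G hG
    intro z hz hz2
    rw [ratio_sh] at hz2 ⊢
    rw [gradLen_sh, kOne_sh, kTwo_sh]
    exact hg (z + w) (shift_mem hz) hz2

/-- Heinz's bound of the total curvature by the slope on the double square -/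
lemma heinz_double {f : ℝ × ℝ → ℝ} (hf : ContDiff ℝ 3 f) {w : ℝ × ℝ} {R M : ℝ} (hR : 0 < R)
    (h : ∀ z ∈ square w (2 * R), gaussK f z ≤ 0 ∧ |px f z| ≤ M ∧ |py f z| ≤ M) :
    totalK f (square w R) ≤ 304 * M ^ 2 := by
  have hf' := contDiff_sh (w := w) hf
  have h' : ∀ z ∈ sq (2 * R), gaussK (sh w f) z ≤ 0 ∧ |px (sh w f) z| ≤ M ∧
      |py (sh w f) z| ≤ M := by
    intro z hz
    rw [gaussK_sh, px_sh, py_sh]
    exact h (z + w) (shift_mem hz)
  rw [← totalK_sh]
  set g := sh w f with hg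
  have hR2 : 0 < 2 * R := by linarith
  have hM0 : 0 ≤ M := (abs_nonneg _).trans (h' (0, 0)
      ⟨⟨by simpa using hR.le, hR2.le⟩, ⟨by simpa using hR.le, hR2.le⟩⟩).2.1
  have hh := heinz (dat g hf') hR2 hM0 (fun z hz => (h' z hz).2.1) (fun z hz => (h' z hz).2.2)
  have hsub : sq R ⊆ sq (2 * R) := by
    rintro z ⟨⟨a1, a2⟩, ⟨a3, a4⟩⟩
    exact ⟨⟨by linarith, by linarith⟩, ⟨by linarith, by linarith⟩⟩
  have ccz : ContinuousOn (cz (2 * R)) (sq (2 * R)) := smul_cont.continuousOn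
  have cr := (dat g hf').cr
  have cs := (dat g hf').cs
  have ct := (dat g hf').ct
  have cK : Continuous (gaussK g) := (contDiff_gaussK hf').continuous
  have cW : Continuous (areaW g) := (contDiff_areaW hf').continuous
  have i1 : IntegrableOn (fun z => cz (2 * R) z *
      ((dat g hf').s z ^ 2 - (dat g hf').r z * (dat g hf').t z)) (sq (2 * R)) := by
    apply integrableOn_sq; fun_prop
  have s1 : ∫ z in sq R, cz (2 * R) z * ((dat g hf').s z ^ 2 - (dat g hf').r z * (dat g hf').t z) ≤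
      ∫ z in sq (2 * R), cz (2 * R) z *
        ((dat g hf').s z ^ 2 - (dat g hf').r z * (dat g hf').t z) := by
    refine setIntegral_mono_set i1 ?_ (LE.le.eventuallyLE hsub)
    rw [Filter.EventuallyLE, ae_restrict_iff' (measurableSet_sq _)]
    exact Filter.Eventually.of_forall fun z hz =>
      mul_nonneg (cz_nonneg _ z) (DW g z (h' z hz).1).1
  have s2 : ∫ z in sq R, 81 / 256 * (|gaussK g z| * areaW g z) ≤
      ∫ z in sq R, cz (2 * R) z * ((dat g hf').s z ^ 2 - (dat g hf').r z * (dat g hf').t z) := by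
    refine setIntegral_mono_on ?_ (i1.mono_set hsub) (measurableSet_sq R) ?_
    · apply integrableOn_sq; fun_prop
    · intro z hz
      have hd := DW g z (h' z (hsub hz)).1
      have hc : 81 / 256 ≤ cz (2 * R) z := by
        have hb : ∀ x ∈ Icc (-R) R, 9 / 16 ≤ ca (2 * R) x := by
          intro x hx
          have h1 := div_mem hR hx
          unfold ca
          have e : (x / (2 * R)) ^ 2 = (x / R) ^ 2 / 4 := by field_simp; ring
          rw [e]
          nlinarith [sq_nonneg (x / R)]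
        have h1 := hb z.1 hz.1
        have h2 := hb z.2 hz.2
        unfold cz
        nlinarith
      calc 81 / 256 * (|gaussK g z| * areaW g z)
          ≤ 81 / 256 * ((dat g hf').s z ^ 2 - (dat g hf').r z * (dat g hf').t z) :=
            mul_le_mul_of_nonneg_left hd.2 (by norm_num)
        _ ≤ _ := mul_le_mul_of_nonneg_right hc hd.1
  rw [integral_const_mul] at s2
  have s3 : 81 / 256 * totalK g (sq R) ≤ 96 * M ^ 2 := s2.trans (s1.trans hh)
  nlinarith [sq_nonneg M]

/-! ### entire graphs -/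

lemma totalK_nonneg (f : ℝ × ℝ → ℝ) (S : Set (ℝ × ℝ)) (hS : MeasurableSet S) : 0 ≤ totalK f S :=
  setIntegral_nonneg hS fun z _ =>
    mul_nonneg (abs_nonneg _) (by have := one_le_areaW f z; linarith)

lemma isClosed_square (w : ℝ × ℝ) (R : ℝ) : IsClosed (square w R) := by
  have h1 : IsClosed {z : ℝ × ℝ | |z.1 - w.1| ≤ R} := isClosed_le (by fun_prop) continuous_const
  have h2 : IsClosed {z : ℝ × ℝ | |z.2 - w.2| ≤ R} := isClosed_le (by fun_prop) continuous_const
  exact h1.inter h2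

/-- the hypothesis along a sequence of squares -/
lemma global_seq {f : ℝ × ℝ → ℝ} (hf : ContDiff ℝ 3 f) (hK : ∀ z, gaussK f z ≤ 0)
    (h : ∀ ε > 0, ∀ R₀ : ℝ, ∃ w : ℝ × ℝ, ∃ R ≥ R₀, totalK f (square w R) ≤ ε * R ^ 2 ∧
      (varRatio f (square w R) ≤ ε * R ^ 2 ∨
       totalK f (square w R) * dirRatio f (square w R) ≤ ε * R ^ 4 ∨
       ∃ G ≥ 0, G * totalK f (square w R) ≤ ε * R ^ 2 ∧ ∀ z ∈ square w R,
        0 < |kOne f z| + |kTwo f z| → |ratio f z| < 1 / 2 →
          gradLen f (ratio f) z ≤ G * (|kOne f z| + |kTwo f z|) ^ 2)) :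
    ∀ δ > 0, ∃ z, |kOne f z| + |kTwo f z| < δ := by
  intro δ hδ
  by_contra hcon
  push Not at hcon
  obtain ⟨C, hC, hloc⟩ := local_main
  set η : ℝ := min (δ ^ 2 / (8 * C)) (δ / (8 * C)) with hη
  have hη0 : 0 < η := by positivity
  have hη1 : C * η ≤ δ ^ 2 / 8 := by
    calc C * η ≤ C * (δ ^ 2 / (8 * C)) := mul_le_mul_of_nonneg_left (min_le_left _ _) hC.le
      _ = δ ^ 2 / 8 := by field_simp
  have hη2 : C * δ * η ≤ δ ^ 2 / 8 := by
    calc C * δ * η ≤ C * δ * (δ / (8 * C)) :=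
          mul_le_mul_of_nonneg_left (min_le_right _ _) (by positivity)
      _ = δ ^ 2 / 8 := by field_simp
  obtain ⟨w, R, hR, hT, hV⟩ := h (min (3 / 16 * η) (3 / 16 * (δ ^ 2 * η ^ 2))) (by positivity)
    (max 1 (8 * C / δ))
  set ε : ℝ := min (3 / 16 * η) (3 / 16 * (δ ^ 2 * η ^ 2)) with hε
  have hε1 : ε ≤ 3 / 16 * η := min_le_left _ _
  have hε2 : ε ≤ 3 / 16 * (δ ^ 2 * η ^ 2) := min_le_right _ _
  have hR1 : 1 ≤ R := (le_max_left _ _).trans hR
  have hR2 : 8 * C / δ ≤ R := (le_max_right _ _).trans hR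
  have hR0 : 0 < R := by linarith
  have hRsq : 0 < R ^ 2 := by positivity
  obtain ⟨a1, -, a3, a4⟩ := hloc f hf w R δ hR0 hδ fun z _ => ⟨hK z, hcon z⟩
  have hT' : totalK f (square w R) ≤ η * R ^ 2 := by
    refine hT.trans (mul_le_mul_of_nonneg_right ?_ hRsq.le)
    linarith
  have hV' : varRatio f (square w R) ≤ η * R ^ 2 := by
    rcases hV with hV | hV | ⟨G, hG, hGT, hg⟩
    · refine hV.trans (mul_le_mul_of_nonneg_right ?_ hRsq.le)
      linarith
    · have h1 : δ ^ 2 * varRatio f (square w R) ^ 2 ≤ δ ^ 2 * (η * R ^ 2) ^ 2 := by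
        refine a4.trans ?_
        have h2 : ε * R ^ 4 ≤ 3 / 16 * (δ ^ 2 * η ^ 2) * R ^ 4 :=
          mul_le_mul_of_nonneg_right hε2 (by positivity)
        nlinarith
      have h3 : varRatio f (square w R) ^ 2 ≤ (η * R ^ 2) ^ 2 :=
        le_of_mul_le_mul_left h1 (by positivity)
      exact (abs_le_of_sq_le_sq' h3 (by positivity)).2
    · have h1 := a3 G hG fun z hz hz2 => hg z hz (lt_of_lt_of_le hδ (hcon z)) hz2
      have h2 : ε * R ^ 2 ≤ 3 / 16 * η * R ^ 2 := mul_le_mul_of_nonneg_right hε1 hRsq.le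
      linarith
  have b1 : C * (δ * R) ≤ δ ^ 2 / 8 * R ^ 2 := by
    rw [div_le_iff₀ hδ] at hR2
    nlinarith [mul_pos hδ hR0]
  have b2 : C * totalK f (square w R) ≤ δ ^ 2 / 8 * R ^ 2 := by
    calc C * totalK f (square w R) ≤ C * (η * R ^ 2) := mul_le_mul_of_nonneg_left hT' hC.le
      _ = C * η * R ^ 2 := by ring
      _ ≤ δ ^ 2 / 8 * R ^ 2 := mul_le_mul_of_nonneg_right hη1 hRsq.le
  have b3 : C * (δ * varRatio f (square w R)) ≤ δ ^ 2 / 8 * R ^ 2 := by
    calc C * (δ * varRatio f (square w R)) ≤ C * (δ * (η * R ^ 2)) :=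
          mul_le_mul_of_nonneg_left (mul_le_mul_of_nonneg_left hV' hδ.le) hC.le
      _ = C * δ * η * R ^ 2 := by ring
      _ ≤ δ ^ 2 / 8 * R ^ 2 := mul_le_mul_of_nonneg_right hη2 hRsq.le
  have b4 : 0 < δ ^ 2 * R ^ 2 := by positivity
  nlinarith

/-- finite total curvature -/
lemma global_finite {f : ℝ × ℝ → ℝ} (hf : ContDiff ℝ 3 f) (hK : ∀ z, gaussK f z ≤ 0)
    (hI : Integrable fun z => |gaussK f z| * areaW f z) {C₀ : ℝ}
    (h : ∀ z, 0 < |kOne f z| + |kTwo f z| → |ratio f z| < 1 / 2 →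
      gradLen f (ratio f) z ≤ C₀ * (1 + ‖z‖ ^ 2) * (|kOne f z| + |kTwo f z|) ^ 2) :
    ∀ δ > 0, ∃ z, |kOne f z| + |kTwo f z| < δ := by
  apply global_seq hf hK
  intro ε hε R₀
  -- the tails of the total curvature
  have htail : Tendsto (fun n : ℕ => ∫ z in {z : ℝ × ℝ | (n : ℝ) ≤ z.1},
      |gaussK f z| * areaW f z) atTop (𝓝 0) := by
    have h1 := tendsto_setIntegral_of_antitone (μ := (volume : Measure (ℝ × ℝ)))
      (s := fun n : ℕ => {z : ℝ × ℝ | (n : ℝ) ≤ z.1}) (f := fun z => |gaussK f z| * areaW f z)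
      (fun n => (isClosed_le continuous_const continuous_fst).measurableSet)
      (by
        intro m n hmn z hz
        have : (m : ℝ) ≤ n := by exact_mod_cast hmn
        exact le_trans this hz)
      ⟨0, hI.integrableOn⟩
    have h2 : (⋂ n : ℕ, {z : ℝ × ℝ | (n : ℝ) ≤ z.1}) = ∅ := by
      rw [eq_empty_iff_forall_notMem]
      intro z hz
      rw [mem_iInter] at hz
      obtain ⟨n, hn⟩ := exists_nat_gt z.1
      exact absurd (hz n) (not_le.2 hn)
    rw [h2, Measure.restrict_empty, integral_zero_measure] at h1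
    exact h1
  set K0 : ℝ := 17 * |C₀| + 1 with hK0
  have hK0pos : 0 < K0 := by positivity
  have hev := htail.eventually_lt_const (u := ε / K0) (by positivity)
  obtain ⟨N, hN⟩ := eventually_atTop.1 hev
  obtain ⟨N1, hN1⟩ := exists_nat_ge R₀
  set n : ℕ := max (max N N1) 1 with hn
  have hn1 : (1 : ℝ) ≤ n := by exact_mod_cast le_max_right _ _
  have hnR : R₀ ≤ n := hN1.trans (by exact_mod_cast (le_max_right N N1).trans (le_max_left _ _))
  have hnN : N ≤ n := (le_max_left N N1).trans (le_max_left _ _)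
  have hn0 : (0 : ℝ) < n := by linarith
  have hT : totalK f (square (3 * n, 0) n) ≤ ε / K0 := by
    refine le_trans ?_ (hN n hnN).le
    refine setIntegral_mono_set hI.integrableOn ?_ ?_
    · exact Filter.Eventually.of_forall fun z =>
        mul_nonneg (abs_nonneg _) (by have := one_le_areaW f z; linarith)
    · apply LE.le.eventuallyLE
      intro z hz
      have h1 := (abs_le.1 hz.1).1
      have h2 : -(n : ℝ) ≤ z.1 - 3 * n := h1
      show (n : ℝ) ≤ z.1
      linarith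
  have hT0 := totalK_nonneg f _ (isClosed_square ((3 * (n : ℝ), 0) : ℝ × ℝ) n).measurableSet
  refine ⟨(3 * n, 0), n, hnR, ?_, Or.inr (Or.inr ⟨|C₀| * (17 * (n : ℝ) ^ 2), by positivity, ?_, ?_⟩)⟩
  · refine hT.trans ?_
    calc ε / K0 ≤ ε := div_le_self hε.le (by rw [hK0]; linarith [abs_nonneg C₀])
      _ ≤ ε * (n : ℝ) ^ 2 := le_mul_of_one_le_right hε.le (one_le_pow₀ hn1)
  · calc |C₀| * (17 * (n : ℝ) ^ 2) * totalK f (square (3 * n, 0) n)
        ≤ |C₀| * (17 * (n : ℝ) ^ 2) * (ε / K0) := mul_le_mul_of_nonneg_left hT (by positivity)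
      _ = (17 * |C₀| / K0) * (ε * (n : ℝ) ^ 2) := by field_simp
      _ ≤ 1 * (ε * (n : ℝ) ^ 2) := by
          apply mul_le_mul_of_nonneg_right _ (by positivity)
          rw [div_le_one hK0pos, hK0]; linarith
      _ = ε * (n : ℝ) ^ 2 := one_mul _
  · intro z hz hz1 hz2
    refine (h z hz1 hz2).trans ?_
    apply mul_le_mul_of_nonneg_right _ (sq_nonneg _)
    have hz3 : |z.1| ≤ 4 * n := by
      have h1 := abs_le.1 hz.1
      have h2 : -(n : ℝ) ≤ z.1 - 3 * n := h1.1
      have h3 : z.1 - 3 * n ≤ n := h1.2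
      rw [abs_le]; constructor <;> linarith
    have hz4 : |z.2| ≤ 4 * n := by
      have h1 := abs_le.1 hz.2
      have h2 : -(n : ℝ) ≤ z.2 - 0 := h1.1
      have h3 : z.2 - 0 ≤ n := h1.2
      rw [abs_le]; constructor <;> linarith
    have hz5 : ‖z‖ ≤ 4 * n := by
      rw [Prod.norm_def]
      exact max_le hz3 hz4
    have hz6 : ‖z‖ ^ 2 ≤ 16 * (n : ℝ) ^ 2 := by
      calc ‖z‖ ^ 2 ≤ (4 * (n : ℝ)) ^ 2 := pow_le_pow_left₀ (norm_nonneg _) hz5 2
        _ = 16 * (n : ℝ) ^ 2 := by ring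
    have hz7 : 1 + ‖z‖ ^ 2 ≤ 17 * (n : ℝ) ^ 2 := by nlinarith
    calc C₀ * (1 + ‖z‖ ^ 2) ≤ |C₀| * (1 + ‖z‖ ^ 2) :=
          mul_le_mul_of_nonneg_right (le_abs_self _) (by positivity)
      _ ≤ |C₀| * (17 * (n : ℝ) ^ 2) := mul_le_mul_of_nonneg_left hz7 (abs_nonneg _)

/-- an entire saddle graph with bounded slope has finite total curvature -/
lemma integrable_of_slope {f : ℝ × ℝ → ℝ} (hf : ContDiff ℝ 3 f) (hK : ∀ z, gaussK f z ≤ 0)
    {M : ℝ} (hM : ∀ z, |px f z| ≤ M ∧ |py f z| ≤ M) :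
    Integrable fun z => |gaussK f z| * areaW f z := by
  have cK : Continuous (gaussK f) := (contDiff_gaussK hf).continuous
  have cW : Continuous (areaW f) := (contDiff_areaW hf).continuous
  have hc : Continuous fun z => |gaussK f z| * areaW f z := cK.abs.mul cW
  have hcov : AECover (volume : Measure (ℝ × ℝ)) (atTop : Filter ℕ)
      fun n : ℕ => Metric.closedBall ((0, 0) : ℝ × ℝ) (n : ℝ) :=
    aecover_closedBall tendsto_natCast_atTop_atTop
  refine hcov.integrable_of_integral_norm_bounded (304 * M ^ 2) ?_ ?_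
  · intro n
    exact hc.continuousOn.integrableOn_compact (isCompact_closedBall _ _)
  · filter_upwards [eventually_ge_atTop 1] with n hn
    have hn0 : (0 : ℝ) < n := by exact_mod_cast hn
    have h1 := heinz_double (w := (0, 0)) hf hn0 fun z _ => ⟨hK z, hM z⟩
    have e : Metric.closedBall ((0, 0) : ℝ × ℝ) (n : ℝ) = square (0, 0) n := by
      ext z
      rw [Metric.mem_closedBall, Prod.dist_eq, max_le_iff, Real.dist_eq, Real.dist_eq]
      rfl
    rw [e]
    have e2 : ∀ z, ‖|gaussK f z| * areaW f z‖ = |gaussK f z| * areaW f z := by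
      intro z
      exact Real.norm_of_nonneg (mul_nonneg (abs_nonneg _)
        (by have := one_le_areaW f z; linarith))
    simp_rw [e2]
    exact h1

/-- **Main result** for graphs of functions `f` of class `C ^ 3` on the plane.
1. On a square of half side `R` on which the graph is saddle with `|k₁| + |k₂| ≥ c`, `c ^ 2 R ^ 2` is
   bounded by an absolute constant times `c R` plus the total curvature (or the square of the slope)
   plus `c` times the variation of the curvature ratio.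
2. An entire saddle graph has `inf (|k₁| + |k₂|) = 0` if on suitable arbitrarily large squares the
   total curvature is `o(R²)` and the variation, or the energy, or the size of the gradient of the
   curvature ratio is small.
3. The same if the slopes on the double squares are `o(R)`.
4. The same if the total curvature is finite or the slope is bounded and the gradient of the
   ratio grows at most quadratically, measured against `(|k₁| + |k₂|) ^ 2`. -/
theorem result :
    (∃ C : ℝ, 0 < C ∧ ∀ f : ℝ × ℝ → ℝ, ContDiff ℝ 3 f → ∀ (w : ℝ × ℝ) (R c : ℝ), 0 < R → 0 < c →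
      (∀ z ∈ square w R, gaussK f z ≤ 0 ∧ c ≤ |kOne f z| + |kTwo f z|) →
      c ^ 2 * R ^ 2 ≤ C * (c * R + totalK f (square w R) + c * varRatio f (square w R)) ∧
      ∀ M : ℝ, (∀ z ∈ square w R, |px f z| ≤ M ∧ |py f z| ≤ M) →
        c ^ 2 * R ^ 2 ≤ C * (c * R + M ^ 2 + c * varRatio f (square w R))) ∧
    (∀ f : ℝ × ℝ → ℝ, ContDiff ℝ 3 f → (∀ z, gaussK f z ≤ 0) →
      (∀ ε > 0, ∀ R₀ : ℝ, ∃ w : ℝ × ℝ, ∃ R ≥ R₀, totalK f (square w R) ≤ ε * R ^ 2 ∧
        (varRatio f (square w R) ≤ ε * R ^ 2 ∨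
         totalK f (square w R) * dirRatio f (square w R) ≤ ε * R ^ 4 ∨
         ∃ G ≥ 0, G * totalK f (square w R) ≤ ε * R ^ 2 ∧ ∀ z ∈ square w R,
          0 < |kOne f z| + |kTwo f z| → |ratio f z| < 1 / 2 →
            gradLen f (ratio f) z ≤ G * (|kOne f z| + |kTwo f z|) ^ 2)) →
      ∀ δ > 0, ∃ z, |kOne f z| + |kTwo f z| < δ) ∧
    (∀ f : ℝ × ℝ → ℝ, ContDiff ℝ 3 f → (∀ z, gaussK f z ≤ 0) →
      (∀ ε > 0, ∀ R₀ : ℝ, ∃ w : ℝ × ℝ, ∃ R ≥ R₀, ∃ M G : ℝ, 0 ≤ G ∧ M ^ 2 * (1 + G) ≤ ε * R ^ 2 ∧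
        (∀ z ∈ square w (2 * R), |px f z| ≤ M ∧ |py f z| ≤ M) ∧
        ∀ z ∈ square w R, 0 < |kOne f z| + |kTwo f z| → |ratio f z| < 1 / 2 →
            gradLen f (ratio f) z ≤ G * (|kOne f z| + |kTwo f z|) ^ 2) →
      ∀ δ > 0, ∃ z, |kOne f z| + |kTwo f z| < δ) ∧
    (∀ f : ℝ × ℝ → ℝ, ContDiff ℝ 3 f → (∀ z, gaussK f z ≤ 0) →
      (Integrable (fun z => |gaussK f z| * areaW f z) ∨ ∃ M, ∀ z, |px f z| ≤ M ∧ |py f z| ≤ M) →
      (∃ C₀ : ℝ, ∀ z, 0 < |kOne f z| + |kTwo f z| → |ratio f z| < 1 / 2 →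
        gradLen f (ratio f) z ≤ C₀ * (1 + ‖z‖ ^ 2) * (|kOne f z| + |kTwo f z|) ^ 2) →
      ∀ δ > 0, ∃ z, |kOne f z| + |kTwo f z| < δ) := by
  refine ⟨?_, fun f hf hK h => global_seq hf hK h, ?_, ?_⟩
  · obtain ⟨C, hC, h⟩ := local_main
    refine ⟨C, hC, fun f hf w R c hR hc hs => ?_⟩
    obtain ⟨a1, a2, -, -⟩ := h f hf w R c hR hc hs
    exact ⟨a1, a2⟩
  · intro f hf hK h
    apply global_seq hf hK
    intro ε hε R₀
    obtain ⟨w, R, hR, M, G, hG, hMG, hs, hg⟩ := h (ε / 304) (by positivity) (max R₀ 1)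
    have hR1 : 1 ≤ R := (le_max_right _ _).trans hR
    have hT := heinz_double (w := w) hf (by linarith : 0 < R) fun z hz => ⟨hK z, hs z hz⟩
    have hM2 := sq_nonneg M
    have hT0 := totalK_nonneg f _ (isClosed_square w R).measurableSet
    refine ⟨w, R, (le_max_left _ _).trans hR, ?_, Or.inr (Or.inr ⟨G, hG, ?_, hg⟩)⟩
    · have : M ^ 2 * G ≥ 0 := by positivity
      nlinarith
    · have h1 : G * totalK f (square w R) ≤ G * (304 * M ^ 2) := mul_le_mul_of_nonneg_left hT hG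
      nlinarith
  · intro f hf hK h1 h2
    obtain ⟨C₀, h2⟩ := h2
    rcases h1 with h1 | ⟨M, h1⟩
    · exact global_finite hf hK h1 h2
    · exact global_finite hf hK (integrable_of_slope hf hK h1) h2

end Pool.Agent.Results.MP_0da599_gt.EntireGraphs
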