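import Pool.Agent.Helper75.MW.Main

/-!
# Milnor's conjecture for complete saddle surfaces is false

The surface is a corrugated helicoid `(s, t) ↦ (s cos t, s sin t, t + G (s, t))`.
-/

set_option autoImplicit false

namespace Pool.Agent.Results.MP_0da599_gt.MilnorFalse

open Filter Topology Set

/-- There is a complete, properly embedded smooth surface `X : ℝ² → ℝ³` with unit normal `N` and principal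
curvatures `k₁, k₂` such that `k₁ k₂ < 0` and `|k₁| + |k₂| ≥ c > 0` everywhere. -/
theorem result : ∃ (X N : ℝ × ℝ → EuclideanSpace ℝ (Fin 3)) (k₁ k₂ : ℝ × ℝ → ℝ) (c : ℝ),
    ContDiff ℝ (⊤ : ℕ∞) X ∧ ContDiff ℝ (⊤ : ℕ∞) N ∧ IsClosedEmbedding X ∧
    (∀ p, Function.Injective (fderiv ℝ X p)) ∧
    (∀ u : ℕ → ℝ × ℝ,
      (∀ ε : ENNReal, 0 < ε → ∃ n, ∀ i ≥ n, ∀ j ≥ n, ∃ γ : ℝ → ℝ × ℝ, ContinuousOn γ (Icc 0 1) ∧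
        γ 0 = u i ∧ γ 1 = u j ∧ eVariationOn (X ∘ γ) (Icc 0 1) < ε) →
      ∃ p, ∀ ε : ENNReal, 0 < ε → ∃ n, ∀ i ≥ n, ∃ γ : ℝ → ℝ × ℝ, ContinuousOn γ (Icc 0 1) ∧
        γ 0 = u i ∧ γ 1 = p ∧ eVariationOn (X ∘ γ) (Icc 0 1) < ε) ∧
    (∀ p, ‖N p‖ = 1) ∧ (∀ p v, inner ℝ (N p) (fderiv ℝ X p v) = 0) ∧
    (∀ p, ∃ v₁ v₂, Orthonormal ℝ ![fderiv ℝ X p v₁, fderiv ℝ X p v₂] ∧
      fderiv ℝ N p v₁ = -k₁ p • fderiv ℝ X p v₁ ∧ fderiv ℝ N p v₂ = -k₂ p • fderiv ℝ X p v₂) ∧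
    (∀ p, k₁ p * k₂ p < 0) ∧ 0 < c ∧ (∀ p, c ≤ |k₁ p| + |k₂ p|) :=
  Pool.Agent.Helper75.MW.milnor_false

end Pool.Agent.Results.MP_0da599_gt.MilnorFalse
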